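import Pool.Agent.L5helper75.AP.PA
import Pool.Agent.L5helper75.PJ.Run

set_option autoImplicit false

/-! Problem MP_04c775_lc, question Q1: there are almost complete PA degrees which are not above
`0'` and compute almost complete 1-random sets; above every almost complete 1-random set which does
not compute the halting problem there is such a degree. -/

namespace Pool.Agent.Results.MP_04c775_lc.AboveRandom

open Pool.Agent.Helper743 Pool.Agent.Helper743.KT Nat.Partrec

/-- `A` is Turing reducible to `B`, for sets given by their characteristic functions. -/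
def Below (A B : ℕ → Bool) : Prop :=
  TuringReducible (fun n => Part.some (A n).toNat : ℕ →. ℕ)
    (fun n => Part.some (B n).toNat : ℕ →. ℕ)

/-- `f` is upper semicomputable relative to the set `B`: the set of the pairs `(n, k)` with
`f n ≤ k` is the domain of a function that is partial computable relative to `B`. -/
def UpperSemi (B : ℕ → Bool) (f : ℕ → ℕ) : Prop :=
  ∃ φ : ℕ →. ℕ, TuringReducible φ (fun n => Part.some (B n).toNat : ℕ →. ℕ) ∧
    ∀ n k : ℕ, (φ (Nat.pair n k)).Dom ↔ f n ≤ k

/-- All finite sums of the numbers `2 ^ (- f n)` are at most `1`. -/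
def KraftSum (f : ℕ → ℕ) : Prop := ∀ s : Finset ℕ, ∑ n ∈ s, (1 / 2 : ℝ) ^ f n ≤ 1

/-- `κ` is (a version of) prefix-free Kolmogorov complexity relative to `B`, on natural numbers:
the least function up to an additive constant among the functions which are upper semicomputable
relative to `B` and satisfy the Kraft inequality. -/
def IsComplexity (B : ℕ → Bool) (κ : ℕ → ℕ) : Prop :=
  UpperSemi B κ ∧ KraftSum κ ∧
    ∀ f : ℕ → ℕ, UpperSemi B f → KraftSum f → ∃ c : ℕ, ∀ n, κ n ≤ f n + c

/-- `X` is K-trivial relative to `B`: the complexity relative to `B` of the string of the first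
`n` bits of `X` exceeds the complexity relative to `B` of `n` by at most a constant. Strings
are coded by natural numbers in the standard way. -/
def KTrivialRel (X B : ℕ → Bool) : Prop :=
  ∃ κ : ℕ → ℕ, IsComplexity B κ ∧
    ∃ c : ℕ, ∀ n : ℕ, κ (Encodable.encode (List.ofFn (fun i : Fin n => X i))) ≤ κ n + c

/-- The halting problem. -/
noncomputable def haltingSet (n : ℕ) : Bool :=
  open Classical in decide (Code.eval (Denumerable.ofNat Code n) n).Dom

/-- `B` is almost complete: the halting problem is K-trivial relative to `B`. -/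
def AlmostComplete (B : ℕ → Bool) : Prop := KTrivialRel haltingSet B

/-- A Martin-Löf test: a uniformly computably enumerable sequence of sets `U n` of binary strings
such that the open set generated by `U n` has measure at most `2 ^ (- n)`. The measure of this
open set is the supremum of the sums of `2 ^ (- length σ)` over the finite prefix-free
subsets of `U n`. -/
def IsMLTest (U : ℕ → Set (List Bool)) : Prop :=
  REPred (fun p : ℕ × List Bool => p.2 ∈ U p.1) ∧
  ∀ n, ∀ S : Finset (List Bool), (∀ σ ∈ S, σ ∈ U n) →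
    (∀ σ ∈ S, ∀ τ ∈ S, σ <+: τ → σ = τ) → ∑ σ ∈ S, (1 / 2 : ℝ) ^ σ.length ≤ (1 / 2) ^ n

/-- `Z` is 1-random (Martin-Löf random): for every Martin-Löf test `U` there is `n` such that no
initial segment of `Z` is in `U n`. -/
def MLRandom (Z : ℕ → Bool) : Prop :=
  ∀ U : ℕ → Set (List Bool), IsMLTest U → ∃ n, ∀ m : ℕ, List.ofFn (fun i : Fin m => Z i) ∉ U n

/-- The degree of `X` is PA: every partial computable function with values in `{0, 1}` has a total
extension with values in `{0, 1}` which is computable from `X`. -/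
def IsPA (X : ℕ → Bool) : Prop :=
  ∀ f : ℕ →. Bool, Partrec f → ∃ g : ℕ → Bool, Below g X ∧ ∀ n b, b ∈ f n → g n = b

/-- `X` is PA relative to `Z`: every partial function with values in `{0, 1}` which is partial
computable relative to `Z` has a total extension with values in `{0, 1}` which is computable
from `X`. -/
def IsPARel (X Z : ℕ → Bool) : Prop :=
  ∀ f : ℕ →. ℕ, TuringReducible f (fun n => Part.some (Z n).toNat : ℕ →. ℕ) →
    (∀ n, ∀ b ∈ f n, b = 0 ∨ b = 1) → ∃ g : ℕ → Bool, Below g X ∧ ∀ n, ∀ b ∈ f n, (g n).toNat = b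

lemma below_iff (A B : ℕ → Bool) :
    Below A B ↔ TR (fun n => (A n).toNat) (fun n => (B n).toNat) := TR_iff.symm

lemma pa_of_rel {X Z : ℕ → Bool} (h : IsPARel X Z) : IsPA X := by
  intro f hf
  have h1 : Nat.Partrec (fun n => (f n).map Bool.toNat) := by
    apply Partrec.nat_iff.1
    refine hf.map ?_
    exact (Primrec.dom_bool Bool.toNat).to_comp.comp Computable.snd
  obtain ⟨g, hg1, hg2⟩ := h (fun n => (f n).map Bool.toNat) (by
      rw [TuringReducible, RecursiveIn.iff_nat]
      exact h1.recursiveIn) (by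
      intro n b hb
      rw [Part.mem_map_iff] at hb
      obtain ⟨c, _, rfl⟩ := hb
      cases c <;> simp)
  refine ⟨g, hg1, fun n b hb => ?_⟩
  have h2 := hg2 n b.toNat (by rw [Part.mem_map_iff]; exact ⟨b, hb, rfl⟩)
  revert h2
  cases g n <;> cases b <;> simp

theorem key (Z C : ℕ → Bool) (h : ¬ Below C Z) :
    ∃ A : ℕ → Bool, Below Z A ∧ IsPARel A Z ∧ KTrivialRel C A ∧ ¬ Below C A := by
  classical
  have hUp : ∀ (B : ℕ → Bool) (f : ℕ → ℕ), UpperSemi B f ↔ UpS (fun n => (B n).toNat) f := by
    intro B f
    constructor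
    · rintro ⟨φ, h1, h2⟩
      exact ⟨φ, RecursiveIn.iff_nat.1 h1, h2⟩
    · rintro ⟨φ, h1, h2⟩
      exact ⟨φ, RecursiveIn.iff_nat.2 h1, h2⟩
  rw [below_iff] at h
  obtain ⟨A, h1, h2, h3, h4, h5⟩ := L5helper75.AP.main (fun n => (Z n).toNat) C h
  refine ⟨A, (below_iff _ _).2 h1, ?_, ?_, fun h6 => h3 ((below_iff _ _).1 h6)⟩
  · intro f hf hv
    obtain ⟨g, hg1, hg2⟩ := h2 f (RecursiveIn.iff_nat.1 hf) (fun n b hb => by
      rcases hv n b hb with h | h <;> omega)
    exact ⟨g, (below_iff _ _).2 hg1, hg2⟩
  · refine ⟨KG (fun n => (A n).toNat), ⟨(hUp _ _).2 h4.1, h4.2.1, fun f hf hk =>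
      h4.2.2 f ((hUp _ _).1 hf) hk⟩, ?_⟩
    obtain ⟨c, hc⟩ := h5
    refine ⟨c, fun n => ?_⟩
    have h6 : L5helper75.AP.XC C n = List.ofFn (fun i : Fin n => C i) := by
      unfold L5helper75.AP.XC
      apply List.ext_getElem
      · simp
      · intro i h1 h2
        simp
    rw [← h6]
    exact hc n

lemma random_part (C : ℕ → Bool) :
    ∃ Z : ℕ → Bool, MLRandom Z ∧ KTrivialRel C Z ∧ ¬ Below haltingSet Z := by
  classical
  obtain ⟨X, h1, h2, c, h3⟩ := L5helper75.PJ.main C
  have hUp : ∀ (B : ℕ → Bool) (f : ℕ → ℕ), UpperSemi B f ↔ UpS (fun n => (B n).toNat) f := by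
    intro B f
    constructor
    · rintro ⟨φ, h1, h2⟩
      exact ⟨φ, RecursiveIn.iff_nat.1 h1, h2⟩
    · rintro ⟨φ, h1, h2⟩
      exact ⟨φ, RecursiveIn.iff_nat.2 h1, h2⟩
  refine ⟨X, fun U hU => L5helper75.PJ.rand_ml h1 U hU.1 hU.2, ?_, ?_⟩
  · have o := Opt_KG (fun n => (X n).toNat)
    refine ⟨KG (fun n => (X n).toNat), ⟨(hUp _ _).2 o.1, o.2.1, fun f hf hk =>
      o.2.2 f ((hUp _ _).1 hf) hk⟩, c, fun n => ?_⟩
    have h6 : (List.range n).map C = List.ofFn (fun i : Fin n => C i) := by
      apply List.ext_getElem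
      · simp
      · intro i h1 h2
        simp
    rw [← h6]
    exact h3 n
  · intro h4
    apply h2
    have h5 := (below_iff _ _).1 h4
    have hK0 : (fun n => (haltingSet n).toNat) = K0 := by
      funext n
      unfold haltingSet K0
      by_cases h : (Code.eval (Denumerable.ofNat Code n) n).Dom <;> simp [h]
    rw [hK0] at h5
    exact K_TR_K0.trans h5

/-- (1) There is an almost complete set `A` of PA degree which does not compute the halting problem
and which computes an almost complete 1-random set. (2) Every almost complete 1-random set which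
does not compute the halting problem, and in fact every set `Z` which does not compute the halting
problem, is computable from an almost complete set `A` of PA degree which does not compute the
halting problem. (3) More generally, for all sets `Z` and `C` such that `C` is not computable
from `Z` there is a set `A` above `Z` which is PA relative to `Z` and does not compute `C`, such
that `C` is K-trivial relative to `A`. (4) For every set `C` there is a 1-random set `Z` which does
not compute the halting problem, such that `C` is K-trivial relative to `Z`. -/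
theorem result :
    (∃ A Z : ℕ → Bool, AlmostComplete A ∧ IsPA A ∧ ¬ Below haltingSet A ∧
      Below Z A ∧ AlmostComplete Z ∧ MLRandom Z) ∧
    (∀ Z : ℕ → Bool, ¬ Below haltingSet Z →
      ∃ A : ℕ → Bool, AlmostComplete A ∧ IsPA A ∧ ¬ Below haltingSet A ∧ Below Z A) ∧
    (∀ Z C : ℕ → Bool, ¬ Below C Z →
      ∃ A : ℕ → Bool, Below Z A ∧ IsPARel A Z ∧ KTrivialRel C A ∧ ¬ Below C A) ∧
    (∀ C : ℕ → Bool, ∃ Z : ℕ → Bool, MLRandom Z ∧ KTrivialRel C Z ∧ ¬ Below haltingSet Z) := by
  have h2 : ∀ Z : ℕ → Bool, ¬ Below haltingSet Z →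
      ∃ A : ℕ → Bool, AlmostComplete A ∧ IsPA A ∧ ¬ Below haltingSet A ∧ Below Z A := by
    intro Z hZ
    obtain ⟨A, h1, h2, h3, h4⟩ := key Z haltingSet hZ
    exact ⟨A, h3, pa_of_rel h2, h4, h1⟩
  refine ⟨?_, h2, key, random_part⟩
  obtain ⟨Z, h3, h4, h5⟩ := random_part haltingSet
  obtain ⟨A, h6, h7, h8, h9⟩ := h2 Z h5
  exact ⟨A, Z, h6, h7, h8, h9, h4, h3⟩

end Pool.Agent.Results.MP_04c775_lc.AboveRandom
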